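import Mathlib

/-!
# Generalised reflection subgroups that are not right-angled Coxeter groups
-/

set_option autoImplicit false

namespace Pool.Agent.Results.MP_6a2cdd_al.NonChordal

/-- the defining relators `u²` (`u` a vertex) and `[u,v]` (`u`, `v` adjacent) -/
def racgRels {V : Type*} (Γ : SimpleGraph V) : Set (FreeGroup V) :=
  {r | (∃ u : V, r = FreeGroup.of u * FreeGroup.of u) ∨
    ∃ u v : V, Γ.Adj u v ∧
      r = FreeGroup.of u * FreeGroup.of v * (FreeGroup.of u)⁻¹ * (FreeGroup.of v)⁻¹}

/-- the right-angled Coxeter group `C(Γ)` -/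
abbrev RACG {V : Type*} (Γ : SimpleGraph V) : Type _ := PresentedGroup (racgRels Γ)

/-- the standard generator of `C(Γ)` given by the vertex `u` -/
def gen {V : Type*} (Γ : SimpleGraph V) (u : V) : RACG Γ := PresentedGroup.of u

/-- a reflection: a conjugate of a standard generator -/
def IsReflection {V : Type*} {Γ : SimpleGraph V} (x : RACG Γ) : Prop :=
  ∃ (g : RACG Γ) (u : V), x = g * gen Γ u * g⁻¹

/-- a generalised reflection: a product of finitely many (at least one) distinct pairwise
commuting reflections -/
def IsGenReflection {V : Type*} {Γ : SimpleGraph V} (x : RACG Γ) : Prop :=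
  ∃ l : List (RACG Γ), l ≠ [] ∧ l.Nodup ∧ (∀ r ∈ l, IsReflection r) ∧
    (∀ r ∈ l, ∀ s ∈ l, Commute r s) ∧ l.prod = x

section basic

variable {V : Type*} {Γ : SimpleGraph V}

lemma gen_sq (u : V) : gen Γ u * gen Γ u = 1 := by
  have h : (FreeGroup.of u * FreeGroup.of u) ∈ racgRels Γ := Or.inl ⟨u, rfl⟩
  have h2 := PresentedGroup.one_of_mem h
  simpa [gen, PresentedGroup.of] using h2

lemma gen_comm {u v : V} (huv : Γ.Adj u v) : gen Γ u * gen Γ v = gen Γ v * gen Γ u := by
  have h : (FreeGroup.of u * FreeGroup.of v * (FreeGroup.of u)⁻¹ * (FreeGroup.of v)⁻¹) ∈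
      racgRels Γ := Or.inr ⟨u, v, huv, rfl⟩
  have h2 := PresentedGroup.one_of_mem h
  have h3 : gen Γ u * gen Γ v * (gen Γ u)⁻¹ * (gen Γ v)⁻¹ = 1 := by
    simpa [gen, PresentedGroup.of] using h2
  rw [mul_inv_eq_one, mul_inv_eq_iff_eq_mul] at h3
  exact h3

/-- the homomorphism given by images of the generators -/
def lift {G : Type*} [Group G] (f : V → G) (h1 : ∀ u, f u * f u = 1)
    (h2 : ∀ u v, Γ.Adj u v → f u * f v = f v * f u) : RACG Γ →* G :=
  PresentedGroup.toGroup (f := f) (by
    rintro r (⟨u, rfl⟩ | ⟨u, v, huv, rfl⟩)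
    · simp [h1]
    · simp only [map_mul, map_inv, FreeGroup.lift_apply_of]
      rw [mul_inv_eq_one, mul_inv_eq_iff_eq_mul]
      exact h2 u v huv)

@[simp] lemma lift_gen {G : Type*} [Group G] (f : V → G) (h1 : ∀ u, f u * f u = 1)
    (h2 : ∀ u v, Γ.Adj u v → f u * f v = f v * f u) (u : V) :
    lift (Γ := Γ) f h1 h2 (gen Γ u) = f u := by
  simp [lift, gen]

lemma hom_ext {G : Type*} [Group G] {f g : RACG Γ →* G} (h : ∀ u, f (gen Γ u) = g (gen Γ u)) :
    f = g := by
  apply PresentedGroup.ext
  intro u
  exact h u

end basic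

/-! ### Counting tuples of involutions of `S₃` with product one -/

/-- the symmetric group on three letters -/
abbrev P := Equiv.Perm (Fin 3)

/-- the elements of order at most two with sign `e` -/
def T (e : ℤˣ) : Finset P := Finset.univ.filter (fun t => t * t = 1 ∧ Equiv.Perm.sign t = e)

lemma T_one : T 1 = {1} := by decide

lemma card_T_neg : (T (-1)).card = 3 := by decide

lemma mem_T_neg (g : P) : g ∈ T (-1) ↔ Equiv.Perm.sign g = -1 := by
  revert g; decide

lemma mem_T {e : ℤˣ} {t : P} : t ∈ T e ↔ t * t = 1 ∧ Equiv.Perm.sign t = e := by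
  simp [T]

/-- the lists with entries in `T e` (`e` in the list `es`) and product `g` -/
def tup : List ℤˣ → P → Finset (List P)
  | [], g => if g = 1 then {[]} else ∅
  | e :: es, g => (T e).biUnion (fun t => (tup es (t⁻¹ * g)).image (List.cons t))

lemma mem_tup (es : List ℤˣ) (g : P) (l : List P) :
    l ∈ tup es g ↔ List.Forall₂ (fun t e => t ∈ T e) l es ∧ l.prod = g := by
  induction es generalizing g l with
  | nil =>
    by_cases hg : g = 1
    · simp only [tup, hg, if_true, Finset.mem_singleton, List.forall₂_nil_right_iff]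
      constructor
      · rintro rfl; simp
      · exact fun h => h.1
    · simp only [tup, hg, if_false, List.forall₂_nil_right_iff]
      constructor
      · intro h; simp at h
      · rintro ⟨rfl, h⟩
        exact absurd h.symm hg
  | cons e es ih =>
    simp only [tup, Finset.mem_biUnion, Finset.mem_image]
    constructor
    · rintro ⟨t, ht, l', hl', rfl⟩
      rw [ih] at hl'
      refine ⟨List.Forall₂.cons ht hl'.1, ?_⟩
      rw [List.prod_cons, hl'.2]
      group
    · rintro ⟨h1, h2⟩
      cases h1 with
      | cons ht hl =>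
        rename_i t l'
        refine ⟨t, ht, l', ?_, rfl⟩
        rw [ih]
        refine ⟨hl, ?_⟩
        rw [← h2, List.prod_cons]
        group

lemma card_tup_cons (e : ℤˣ) (es : List ℤˣ) (g : P) :
    (tup (e :: es) g).card = ∑ t ∈ T e, (tup es (t⁻¹ * g)).card := by
  change ((T e).biUnion (fun t => (tup es (t⁻¹ * g)).image (List.cons t))).card = _
  rw [Finset.card_biUnion]
  · apply Finset.sum_congr rfl
    intro t _
    exact Finset.card_image_of_injective _ (List.cons_injective)
  · intro t _ t' _ htt
    rw [Function.onFun, Finset.disjoint_left]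
    intro l hl hl'
    simp only [Finset.mem_image] at hl hl'
    obtain ⟨a, _, rfl⟩ := hl
    obtain ⟨b, _, hb⟩ := hl'
    exact htt (List.cons.inj hb).1.symm

lemma units_cases (e : ℤˣ) : e = 1 ∨ e = -1 := Int.units_eq_one_or e

lemma prod_of_count (es : List ℤˣ) (h : es.count (-1) = 0) : es.prod = 1 := by
  induction es with
  | nil => rfl
  | cons e es ih =>
    rcases units_cases e with rfl | rfl
    · rw [List.count_cons_of_ne (by decide)] at h
      rw [List.prod_cons, ih h, mul_one]
    · rw [List.count_cons_self] at h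
      omega

lemma sum_inv_eq_one (g : P) : (∑ t ∈ T (-1), if t⁻¹ * g = 1 then 1 else 0) =
    if Equiv.Perm.sign g = -1 then 1 else 0 := by
  revert g; decide

lemma card_tup (es : List ℤˣ) (g : P) : (tup es g).card =
    if es.count (-1) = 0 then (if g = 1 then 1 else 0) else
      (if Equiv.Perm.sign g = es.prod then 3 ^ (es.count (-1) - 1) else 0) := by
  induction es generalizing g with
  | nil =>
    by_cases hg : g = 1
    · simp [tup, hg]
    · simp [tup, hg]
  | cons e es ih =>
    rw [card_tup_cons]
    rcases units_cases e with rfl | rfl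
    · rw [T_one, Finset.sum_singleton, ih, List.count_cons_of_ne (by decide), List.prod_cons,
        one_mul, inv_one, one_mul]
    · rw [List.count_cons_self, List.prod_cons]
      by_cases h0 : es.count (-1) = 0
      · rw [if_neg (by omega), h0, prod_of_count es h0, mul_one]
        rw [Finset.sum_congr rfl (g := fun t => if t⁻¹ * g = 1 then 1 else 0)]
        · rw [sum_inv_eq_one]
          simp
        · intro t _
          rw [ih, if_pos h0]
      · rw [if_neg (by omega)]
        have h1 : ∀ t ∈ T (-1), (tup es (t⁻¹ * g)).card =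
            if Equiv.Perm.sign g = -1 * es.prod then 3 ^ (es.count (-1) - 1) else 0 := by
          intro t ht
          rw [ih, if_neg h0]
          have h2 : Equiv.Perm.sign t = -1 := (mem_T.mp ht).2
          have h3 : (Equiv.Perm.sign (t⁻¹ * g) = es.prod) ↔
              (Equiv.Perm.sign g = -1 * es.prod) := by
            rw [map_mul, Equiv.Perm.sign_inv, h2]
            constructor
            · intro h
              rw [← h]
              simp
            · intro h
              rw [h]
              simp
          simp only [h3]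
        rw [Finset.sum_congr rfl h1, Finset.sum_const, card_T_neg]
        split_ifs with h
        · rw [smul_eq_mul]
          obtain ⟨c, hc⟩ := Nat.exists_eq_succ_of_ne_zero h0
          rw [hc]
          simp [pow_succ, mul_comm]
        · simp

/-! ### The polygon groups -/

section polygon

variable (k : ℕ)

/-- the cycle graph on `k + 4` vertices -/
abbrev Cy : SimpleGraph (Fin (k + 4)) := SimpleGraph.cycleGraph (k + 4)

/-- the product of two consecutive generators -/
def r (i : Fin (k + 4)) : RACG (Cy k) := gen (Cy k) i * gen (Cy k) (i + 1)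

/-- the subgroup generated by products of consecutive generators -/
def H : Subgroup (RACG (Cy k)) := Subgroup.closure (Set.range (r k))

lemma adj_succ (i : Fin (k + 4)) : (Cy k).Adj i (i + 1) := by
  rw [SimpleGraph.cycleGraph_adj]
  right
  simp

lemma r_sq (i : Fin (k + 4)) : r k i * r k i = 1 := by
  unfold r
  have h := gen_comm (adj_succ k i)
  calc gen (Cy k) i * gen (Cy k) (i + 1) * (gen (Cy k) i * gen (Cy k) (i + 1))
      = gen (Cy k) i * gen (Cy k) (i + 1) * (gen (Cy k) (i + 1) * gen (Cy k) i) := by rw [h]
    _ = gen (Cy k) i * (gen (Cy k) (i + 1) * gen (Cy k) (i + 1)) * gen (Cy k) i := by group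
    _ = 1 := by rw [gen_sq, mul_one, gen_sq]

/-- partial products of a cyclic sequence -/
def pp {G : Type*} [Group G] {n : ℕ} (x : Fin n → G) (i : ℕ) : G := ((List.ofFn x).take i).prod

lemma pp_zero {G : Type*} [Group G] {n : ℕ} (x : Fin n → G) : pp x 0 = 1 := by simp [pp]

lemma pp_succ {G : Type*} [Group G] {n : ℕ} (x : Fin n → G) (i : Fin n) :
    pp x (i + 1) = pp x i * x i := by
  unfold pp
  rw [List.take_add_one]
  simp

lemma pp_full {G : Type*} [Group G] {n : ℕ} (x : Fin n → G) : pp x n = (List.ofFn x).prod := by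
  unfold pp
  rw [List.take_of_length_le (by simp)]

/-- the successor relation in the cyclic order -/
lemma pp_cyc {G : Type*} [Group G] (x : Fin (k + 4) → G) (hx : (List.ofFn x).prod = 1)
    (i : Fin (k + 4)) : pp x (i + 1 : Fin (k + 4)).val = pp x i.val * x i := by
  rw [← pp_succ]
  by_cases h : i.val + 1 = k + 4
  · have h1 : (i + 1 : Fin (k + 4)).val = 0 := by
      rw [Fin.val_add]
      simp [h]
    rw [h1, h, pp_full, hx, pp_zero]
  · have h1 : (i + 1 : Fin (k + 4)).val = i.val + 1 := by
      rw [Fin.val_add]
      have := i.isLt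
      simp only [Fin.val_one]
      exact Nat.mod_eq_of_lt (by omega)
    rw [h1]

lemma prod_r : (List.ofFn (r k)).prod = 1 := by
  have h : ∀ i : ℕ, i < k + 4 → pp (r k) i = gen (Cy k) 0 * gen (Cy k) (Fin.ofNat (k + 4) i) := by
    intro i
    induction i with
    | zero =>
      intro _
      rw [pp_zero]
      have : (Fin.ofNat (k + 4) 0) = 0 := rfl
      rw [this, gen_sq]
    | succ i ih =>
      intro hi
      have h1 := pp_succ (r k) ⟨i, by omega⟩
      simp only at h1
      rw [h1, ih (by omega)]
      have h2 : (Fin.ofNat (k + 4) i) = ⟨i, by omega⟩ := by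
        apply Fin.ext
        simp [Fin.ofNat, Nat.mod_eq_of_lt (show i < k + 4 by omega)]
      have h3 : (Fin.ofNat (k + 4) (i + 1)) = (⟨i, by omega⟩ : Fin (k + 4)) + 1 := by
        apply Fin.ext
        rw [Fin.val_add]
        simp [Fin.ofNat]
      rw [h2, h3]
      unfold r
      rw [← mul_assoc, mul_assoc (gen (Cy k) 0), gen_sq, mul_one]
  rw [← pp_full]
  have h1 := pp_succ (r k) ⟨k + 3, by omega⟩
  simp only at h1
  rw [h1, h (k + 3) (by omega)]
  have h2 : (Fin.ofNat (k + 4) (k + 3)) = ⟨k + 3, by omega⟩ := by
    apply Fin.ext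
    simp [Fin.ofNat]
  have h3 : (⟨k + 3, by omega⟩ : Fin (k + 4)) + 1 = 0 := by
    apply Fin.ext
    rw [Fin.val_add]
    simp
  rw [h2]
  unfold r
  rw [h3, ← mul_assoc, mul_assoc (gen (Cy k) 0), gen_sq, mul_one, gen_sq]

/-- the involution of `G × Bool` given by `g` -/
def tau {G : Type*} [Group G] (g : G) : Equiv.Perm (G × Bool) where
  toFun p := if p.2 then (g⁻¹ * p.1, false) else (g * p.1, true)
  invFun p := if p.2 then (g⁻¹ * p.1, false) else (g * p.1, true)
  left_inv := by
    rintro ⟨z, b⟩
    cases b <;> simp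
  right_inv := by
    rintro ⟨z, b⟩
    cases b <;> simp

lemma tau_false {G : Type*} [Group G] (g z : G) : tau g (z, false) = (g * z, true) := rfl

lemma tau_true {G : Type*} [Group G] (g z : G) : tau g (z, true) = (g⁻¹ * z, false) := rfl

lemma tau_sq {G : Type*} [Group G] (g : G) : tau g * tau g = 1 := by
  ext1 ⟨z, b⟩
  cases b
  · simp [Equiv.Perm.mul_apply, tau_false, tau_true]
  · simp [Equiv.Perm.mul_apply, tau_false, tau_true]

lemma tau_comm {G : Type*} [Group G] (g x : G) (hx : x * x = 1) :
    tau g * tau (g * x) = tau (g * x) * tau g := by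
  have hx' : x⁻¹ = x := by
    rw [inv_eq_iff_mul_eq_one]
    exact hx
  ext1 ⟨z, b⟩
  cases b
  · simp [Equiv.Perm.mul_apply, tau_false, tau_true, hx', mul_assoc]
  · simp [Equiv.Perm.mul_apply, tau_false, tau_true, hx', mul_assoc]

/-- the homomorphism of the polygon group given by a cyclic sequence of involutions -/
def Psi {G : Type*} [Group G] (x : Fin (k + 4) → G) (hx : (List.ofFn x).prod = 1)
    (h2 : ∀ i, x i * x i = 1) : RACG (Cy k) →* Equiv.Perm (G × Bool) :=
  lift (fun i => tau (pp x i.val)) (fun _ => tau_sq _) (by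
    have key : ∀ i : Fin (k + 4), tau (pp x i.val) * tau (pp x (i + 1 : Fin (k + 4)).val) =
        tau (pp x (i + 1 : Fin (k + 4)).val) * tau (pp x i.val) := by
      intro i
      rw [pp_cyc k x hx]
      exact tau_comm _ _ (h2 i)
    intro u v huv
    rw [SimpleGraph.cycleGraph_adj] at huv
    rcases huv with h | h
    · have h' : u = v + 1 := by rw [← h]; abel
      rw [h']
      exact (key v).symm
    · have h' : v = u + 1 := by rw [← h]; abel
      rw [h']
      exact key u)

lemma Psi_r {G : Type*} [Group G] (x : Fin (k + 4) → G) (hx : (List.ofFn x).prod = 1)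
    (h2 : ∀ i, x i * x i = 1) (i : Fin (k + 4)) (z : G) :
    Psi k x hx h2 (r k i) (z, false) = (x i * z, false) := by
  unfold r Psi
  rw [map_mul, lift_gen, lift_gen, Equiv.Perm.mul_apply, tau_false, tau_true, pp_cyc k x hx]
  simp [mul_assoc]

lemma Psi_H {G : Type*} [Group G] (x : Fin (k + 4) → G) (hx : (List.ofFn x).prod = 1)
    (h2 : ∀ i, x i * x i = 1) (h : RACG (Cy k)) (hh : h ∈ H k) :
    ∃ g : G, ∀ z : G, Psi k x hx h2 h (z, false) = (g * z, false) := by
  unfold H at hh
  induction hh using Subgroup.closure_induction with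
  | mem y hy =>
    obtain ⟨i, rfl⟩ := hy
    exact ⟨x i, Psi_r k x hx h2 i⟩
  | one => exact ⟨1, by simp⟩
  | mul a b _ _ ha hb =>
    obtain ⟨g1, h1⟩ := ha
    obtain ⟨g2, h3⟩ := hb
    refine ⟨g1 * g2, fun z => ?_⟩
    rw [map_mul, Equiv.Perm.mul_apply, h3, h1, mul_assoc]
  | inv a _ ha =>
    obtain ⟨g1, h1⟩ := ha
    refine ⟨g1⁻¹, fun z => ?_⟩
    rw [map_inv, Equiv.Perm.inv_eq_iff_eq, h1]
    simp

/-- every cyclic sequence of involutions with product one defines a homomorphism on `H` -/
lemma exists_hom {G : Type*} [Group G] (x : Fin (k + 4) → G) (hx : (List.ofFn x).prod = 1)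
    (h2 : ∀ i, x i * x i = 1) : ∃ φ : H k →* G, ∀ (i : Fin (k + 4)) (hi : r k i ∈ H k),
      φ ⟨r k i, hi⟩ = x i := by
  refine ⟨MonoidHom.mk' (fun h => (Psi k x hx h2 h.1 (1, false)).1) ?_, ?_⟩
  · rintro ⟨a, ha⟩ ⟨b, hb⟩
    obtain ⟨g1, h1⟩ := Psi_H k x hx h2 a ha
    obtain ⟨g2, h3⟩ := Psi_H k x hx h2 b hb
    change (Psi k x hx h2 (a * b) (1, false)).1 = (Psi k x hx h2 a (1, false)).1 *
      (Psi k x hx h2 b (1, false)).1
    rw [map_mul, Equiv.Perm.mul_apply, h3, h1, h1]
    simp
  · intro i hi
    change (Psi k x hx h2 (r k i) (1, false)).1 = x i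
    rw [Psi_r]
    simp

lemma r_mem (i : Fin (k + 4)) : r k i ∈ H k := Subgroup.subset_closure ⟨i, rfl⟩

/-- the generators as elements of `H` -/
def rr (i : Fin (k + 4)) : H k := ⟨r k i, r_mem k i⟩

lemma closure_rr : Subgroup.closure (Set.range (rr k)) = ⊤ := by
  rw [eq_top_iff]
  rintro ⟨h, hh⟩ _
  have key : ∀ h (hh : h ∈ H k), (⟨h, hh⟩ : H k) ∈ Subgroup.closure (Set.range (rr k)) := by
    intro h hh
    unfold H at hh
    induction hh using Subgroup.closure_induction with
    | mem y hy =>
      obtain ⟨i, rfl⟩ := hy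
      exact Subgroup.subset_closure ⟨i, rfl⟩
    | one => exact one_mem _
    | mul a b ha hb iha ihb => exact mul_mem iha ihb
    | inv a ha iha => exact inv_mem iha
  exact key h hh

lemma prod_rr : (List.ofFn (rr k)).prod = 1 := by
  apply Subtype.ext
  rw [Subgroup.val_list_prod, List.map_ofFn]
  exact prod_r k

lemma hom_eq {G : Type*} [Group G] (f g : H k →* G) (h : ∀ i, f (rr k i) = g (rr k i)) :
    f = g := by
  apply MonoidHom.eq_of_eqOn_dense (closure_rr k)
  rintro _ ⟨i, rfl⟩
  exact h i

/-- the homomorphisms from `G` to `S₃` with given sign -/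
def Lifts {G : Type*} [Group G] (ε : G →* ℤˣ) : Type _ :=
  {φ : G →* P // ∀ h, Equiv.Perm.sign (φ h) = ε h}

lemma forall2_ofFn {α β : Type*} {n : ℕ} (R : α → β → Prop) (x : Fin n → α) (y : Fin n → β) :
    List.Forall₂ R (List.ofFn x) (List.ofFn y) ↔ ∀ i, R (x i) (y i) := by
  rw [List.forall₂_iff_get]
  simp only [List.length_ofFn, List.get_eq_getElem, List.getElem_ofFn, true_and]
  constructor
  · intro h i
    exact h i.val i.isLt i.isLt
  · intro h i h1 h2
    exact h ⟨i, h1⟩

/-- the number of homomorphisms from `H` to `S₃` with given sign -/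
lemma card_lifts (ε : H k →* ℤˣ) :
    Nat.card (Lifts ε) = (tup (List.ofFn (fun i => ε (rr k i))) 1).card := by
  rw [← Nat.card_eq_finsetCard]
  have hmem : ∀ φ : Lifts ε, List.ofFn (fun i => φ.1 (rr k i)) ∈
      tup (List.ofFn (fun i => ε (rr k i))) 1 := by
    intro φ
    rw [mem_tup, forall2_ofFn]
    refine ⟨fun i => ?_, ?_⟩
    · rw [mem_T]
      refine ⟨?_, φ.2 _⟩
      rw [← map_mul]
      have : rr k i * rr k i = 1 := Subtype.ext (r_sq k i)
      rw [this, map_one]
    · have h1 := congrArg φ.1 (prod_rr k)
      rw [map_list_prod, List.map_ofFn, map_one] at h1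
      exact h1
  apply Nat.card_eq_of_bijective
    (fun φ : Lifts ε => (⟨List.ofFn (fun i => φ.1 (rr k i)), hmem φ⟩ :
      {l // l ∈ tup (List.ofFn (fun i => ε (rr k i))) 1}))
  constructor
  · intro φ ψ h
    have h1 := List.ofFn_injective (congrArg Subtype.val h)
    apply Subtype.ext
    exact hom_eq k _ _ (fun i => congrFun h1 i)
  · rintro ⟨l, hl⟩
    have hl' := (mem_tup _ _ _).mp hl
    obtain ⟨x, rfl⟩ : ∃ x : Fin (k + 4) → P, l = List.ofFn x := by
      have hlen : l.length = k + 4 := by
        rw [List.Forall₂.length_eq hl'.1, List.length_ofFn]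
      refine ⟨fun i => l.get (i.cast hlen.symm), ?_⟩
      apply List.ext_get
      · simp [hlen]
      · intro n h1 h2
        rw [List.get_ofFn]
        rfl
    rw [forall2_ofFn] at hl'
    obtain ⟨φ, hφ⟩ := exists_hom k x hl'.2 (fun i => (mem_T.mp (hl'.1 i)).1)
    have hφ' : ∀ i, φ (rr k i) = x i := fun i => hφ i (r_mem k i)
    refine ⟨⟨φ, ?_⟩, ?_⟩
    · have : (Equiv.Perm.sign.comp φ) = ε := by
        apply hom_eq k
        intro i
        rw [MonoidHom.comp_apply, hφ']
        exact (mem_T.mp (hl'.1 i)).2
      intro h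
      rw [← this]
      rfl
    · apply Subtype.ext
      simp only [hφ']

lemma count_even_of_prod (es : List ℤˣ) : es.prod = (-1) ^ (es.count (-1)) := by
  induction es with
  | nil => rfl
  | cons e es ih =>
    rw [List.prod_cons, ih]
    rcases units_cases e with rfl | rfl
    · rw [List.count_cons_of_ne (by decide), one_mul]
    · rw [List.count_cons_self, pow_succ, mul_comm]

/-- the number of lifts of a non-trivial sign homomorphism is an odd power of three -/
lemma card_lifts_odd (ε : H k →* ℤˣ) (hε : ε ≠ 1) :
    ∃ c : ℕ, Nat.card (Lifts ε) = 3 ^ (2 * c + 1) := by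
  have h0 : (List.ofFn (fun i => ε (rr k i))).count (-1) ≠ 0 := by
    intro h
    apply hε
    apply hom_eq k
    intro i
    rw [List.count_eq_zero] at h
    rcases units_cases (ε (rr k i)) with h1 | h1
    · rw [h1]; rfl
    · exfalso
      apply h
      rw [List.mem_ofFn]
      exact ⟨i, h1⟩
  have hp : (List.ofFn (fun i => ε (rr k i))).prod = 1 := by
    have h1 := congrArg ε (prod_rr k)
    rw [map_list_prod, List.map_ofFn, map_one] at h1
    exact h1
  have hev : Even ((List.ofFn (fun i => ε (rr k i))).count (-1)) := by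
    have h1 := count_even_of_prod (List.ofFn (fun i => ε (rr k i)))
    rw [hp] at h1
    by_contra hodd
    rw [Nat.not_even_iff_odd] at hodd
    rw [hodd.neg_one_pow] at h1
    exact absurd h1 (by decide)
  obtain ⟨c, hc⟩ := hev
  refine ⟨c - 1, ?_⟩
  rw [card_lifts, card_tup, if_neg h0, hp, Equiv.Perm.sign_one, if_pos rfl]
  congr 1
  omega

/-- `H` is not commutative -/
lemma not_comm : ∃ a b : H k, a * b ≠ b * a := by
  let s : P := Equiv.swap 0 1
  let t : P := Equiv.swap 1 2
  let x : Fin (k + 4) → P := fun i => if i.val = 0 ∨ i.val = 3 then s else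
    if i.val = 1 ∨ i.val = 2 then t else 1
  have hx : (List.ofFn x).prod = 1 := by
    have h1 : ∀ j : ℕ, pp x (min (4 + j) (k + 4)) = 1 := by
      intro j
      induction j with
      | zero =>
        have e : min (4 + 0) (k + 4) = 4 := by omega
        rw [e]
        have e0 := pp_succ x ⟨0, by omega⟩
        have e1 := pp_succ x ⟨1, by omega⟩
        have e2 := pp_succ x ⟨2, by omega⟩
        have e3 := pp_succ x ⟨3, by omega⟩
        simp only at e0 e1 e2 e3
        have x0 : x ⟨0, by omega⟩ = s := rfl
        have x1 : x ⟨1, by omega⟩ = t := rfl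
        have x2 : x ⟨2, by omega⟩ = t := rfl
        have x3 : x ⟨3, by omega⟩ = s := rfl
        change pp x (3 + 1) = 1
        rw [e3]
        change pp x (2 + 1) * _ = 1
        rw [e2]
        change pp x (1 + 1) * _ * _ = 1
        rw [e1]
        change pp x (0 + 1) * _ * _ * _ = 1
        rw [e0, pp_zero, x0, x1, x2, x3]
        decide
      | succ j ih =>
        by_cases hj : 4 + j < k + 4
        · have e : min (4 + (j + 1)) (k + 4) = (4 + j) + 1 := by omega
          have e' : min (4 + j) (k + 4) = 4 + j := by omega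
          rw [e'] at ih
          have e4 := pp_succ x ⟨4 + j, hj⟩
          simp only at e4
          rw [e, e4, ih, one_mul]
          simp only [x]
          rw [if_neg (by omega), if_neg (by omega)]
        · have e : min (4 + (j + 1)) (k + 4) = min (4 + j) (k + 4) := by omega
          rw [e, ih]
    have h2 := h1 k
    rw [show min (4 + k) (k + 4) = k + 4 by omega, pp_full] at h2
    exact h2
  have hsq : ∀ i, x i * x i = 1 := by
    intro i
    simp only [x]
    split_ifs
    · decide
    · decide
    · decide
  obtain ⟨φ, hφ⟩ := exists_hom k x hx hsq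
  refine ⟨rr k ⟨0, by omega⟩, rr k ⟨1, by omega⟩, ?_⟩
  intro h
  have h1 := congrArg φ h
  rw [map_mul, map_mul] at h1
  have e0 : φ (rr k ⟨0, by omega⟩) = s := hφ _ _
  have e1 : φ (rr k ⟨1, by omega⟩) = t := hφ _ _
  rw [e0, e1] at h1
  exact absurd h1 (by decide)

/-- `H` is not a right-angled Coxeter group -/
theorem H_not_racg {U : Type*} (Δ : SimpleGraph U) (e : H k ≃* RACG Δ) : False := by
  classical
  by_cases hcomp : ∀ u v : U, u ≠ v → Δ.Adj u v
  · -- complete graph: commutative group
    obtain ⟨a, b, hab⟩ := not_comm k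
    apply hab
    apply e.injective
    rw [map_mul, map_mul]
    have hc : ∀ x y : RACG Δ, x * y = y * x := by
      have hcl : Subgroup.closure (Set.range (gen Δ)) = ⊤ := PresentedGroup.closure_range_of _
      have hz : Subgroup.closure (Set.range (gen Δ)) ≤ Subgroup.center (RACG Δ) := by
        rw [Subgroup.closure_le]
        rintro _ ⟨u, rfl⟩
        rw [SetLike.mem_coe, Subgroup.mem_center_iff]
        have hc2 : Subgroup.closure (Set.range (gen Δ)) ≤ Subgroup.centralizer {gen Δ u} := by
          rw [Subgroup.closure_le]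
          rintro _ ⟨v, rfl⟩
          rw [SetLike.mem_coe, Subgroup.mem_centralizer_singleton_iff]
          by_cases huv : v = u
          · rw [huv]
          · exact gen_comm (hcomp v u huv)
        intro g
        have hg : g ∈ Subgroup.closure (Set.range (gen Δ)) := by rw [hcl]; trivial
        have := hc2 hg
        rw [Subgroup.mem_centralizer_singleton_iff] at this
        exact this
      intro x y
      have hy : y ∈ Subgroup.closure (Set.range (gen Δ)) := by rw [hcl]; trivial
      exact (Subgroup.mem_center_iff.mp (hz hy)) x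
    exact hc _ _
  · push Not at hcomp
    obtain ⟨u, v, huv, hnadj⟩ := hcomp
    let f : U → ℤˣ := fun w => if w = u ∨ w = v then -1 else 1
    have hf1 : ∀ w, f w * f w = 1 := fun w => Int.units_mul_self _
    have hf2 : ∀ w w', Δ.Adj w w' → f w * f w' = f w' * f w := fun _ _ _ => mul_comm _ _
    let δ : RACG Δ →* ℤˣ := lift f hf1 hf2
    let ε : H k →* ℤˣ := δ.comp e.toMonoidHom
    have hε : ε ≠ 1 := by
      intro h
      have h1 := DFunLike.congr_fun h (e.symm (gen Δ u))
      simp only [ε, MonoidHom.comp_apply, MonoidHom.one_apply] at h1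
      have h2 : e.toMonoidHom (e.symm (gen Δ u)) = gen Δ u := e.apply_symm_apply _
      rw [h2] at h1
      simp only [δ, lift_gen, f] at h1
      simp at h1
    obtain ⟨c, hc⟩ := card_lifts_odd k ε hε
    -- the lifts correspond to pairs of transpositions
    have h9 : Nat.card (Lifts ε) = Nat.card ({t // t ∈ T (-1)} × {t // t ∈ T (-1)}) := by
      have hm : ∀ (φ : Lifts ε) (w : U), φ.1 (e.symm (gen Δ w)) ∈ T (f w) := by
        intro φ w
        rw [mem_T]
        constructor
        · rw [← map_mul, ← map_mul, gen_sq, map_one, map_one]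
        · rw [φ.2]
          simp only [ε, MonoidHom.comp_apply]
          have h2 : e.toMonoidHom (e.symm (gen Δ w)) = gen Δ w := e.apply_symm_apply _
          rw [h2]
          simp only [δ, lift_gen]
      have hfu : f u = -1 := by simp [f]
      have hfv : f v = -1 := by simp [f]
      apply Nat.card_eq_of_bijective (fun φ : Lifts ε =>
        ((⟨φ.1 (e.symm (gen Δ u)), hfu ▸ hm φ u⟩, ⟨φ.1 (e.symm (gen Δ v)), hfv ▸ hm φ v⟩) :
          {t // t ∈ T (-1)} × {t // t ∈ T (-1)}))
      constructor
      · intro φ ψ h
        have h1 : φ.1 (e.symm (gen Δ u)) = ψ.1 (e.symm (gen Δ u)) :=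
          congrArg (fun p => p.1.1) h
        have h2 : φ.1 (e.symm (gen Δ v)) = ψ.1 (e.symm (gen Δ v)) :=
          congrArg (fun p => p.2.1) h
        apply Subtype.ext
        have h3 : φ.1.comp e.symm.toMonoidHom = ψ.1.comp e.symm.toMonoidHom := by
          apply hom_ext
          intro w
          change φ.1 (e.symm (gen Δ w)) = ψ.1 (e.symm (gen Δ w))
          by_cases hwu : w = u
          · rw [hwu, h1]
          by_cases hwv : w = v
          · rw [hwv, h2]
          have hfw : f w = 1 := by simp [f, hwu, hwv]
          have e1 := hm φ w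
          have e2 := hm ψ w
          rw [hfw, T_one, Finset.mem_singleton] at e1 e2
          rw [e1, e2]
        ext1 h
        have h4 := DFunLike.congr_fun h3 (e h)
        change φ.1 (e.symm (e h)) = ψ.1 (e.symm (e h)) at h4
        rwa [e.symm_apply_apply] at h4
      · rintro ⟨⟨a, ha⟩, ⟨b, hb⟩⟩
        let g : U → P := fun w => if w = u then a else if w = v then b else 1
        have ha' := mem_T.mp ha
        have hb' := mem_T.mp hb
        have hg1 : ∀ w, g w * g w = 1 := by
          intro w
          simp only [g]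
          split_ifs
          · exact ha'.1
          · exact hb'.1
          · simp
        have hg2 : ∀ w w', Δ.Adj w w' → g w * g w' = g w' * g w := by
          intro w w' hww
          simp only [g]
          by_cases h1 : w = u
          · by_cases h2 : w' = u
            · rw [h1, h2]
            · by_cases h3 : w' = v
              · exfalso
                rw [h1, h3] at hww
                exact hnadj hww
              · simp [h2, h3]
          · by_cases h2 : w = v
            · by_cases h3 : w' = u
              · exfalso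
                rw [h2, h3] at hww
                exact hnadj hww.symm
              · by_cases h4 : w' = v
                · rw [h2, h4]
                · simp [h3, h4]
            · simp [h1, h2]
        let γ : RACG Δ →* P := lift g hg1 hg2
        refine ⟨⟨γ.comp e.toMonoidHom, ?_⟩, ?_⟩
        · have : (Equiv.Perm.sign.comp γ) = δ := by
            apply hom_ext
            intro w
            rw [MonoidHom.comp_apply]
            simp only [γ, δ, lift_gen, g, f]
            by_cases h1 : w = u
            · simp [h1, ha'.2]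
            · by_cases h2 : w = v
              · have h3 : v ≠ u := fun h => huv h.symm
                simp [h2, h3, hb'.2]
              · simp [h1, h2]
          intro h
          change Equiv.Perm.sign (γ (e h)) = δ (e h)
          rw [← this]
          rfl
        · have e1 : γ (e (e.symm (gen Δ u))) = a := by
            rw [e.apply_symm_apply]
            simp only [γ, lift_gen, g]
            simp
          have e2 : γ (e (e.symm (gen Δ v))) = b := by
            rw [e.apply_symm_apply]
            simp only [γ, lift_gen, g]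
            have h3 : v ≠ u := fun h => huv h.symm
            simp [h3]
          apply Prod.ext
          · apply Subtype.ext
            exact e1
          · apply Subtype.ext
            exact e2
    rw [h9, Nat.card_prod, Nat.card_eq_finsetCard, card_T_neg] at hc
    have h3 : (3 : ℕ) ^ 2 = 3 ^ (2 * c + 1) := by rw [← hc]; norm_num
    have := Nat.pow_right_injective (le_refl 2 |>.trans (by norm_num) : 2 ≤ 3) h3
    omega

end polygon

/-! ### The main result -/

lemma gen_ne {V : Type*} {Γ : SimpleGraph V} {u v : V} (h : u ≠ v) : gen Γ u ≠ gen Γ v := by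
  classical
  intro he
  let f : V → ℤˣ := fun w => if w = u then -1 else 1
  have h1 := congrArg (lift (Γ := Γ) f (fun w => Int.units_mul_self _)
    (fun _ _ _ => mul_comm _ _)) he
  rw [lift_gen, lift_gen] at h1
  have hu : f u = -1 := if_pos rfl
  have hv : f v = 1 := if_neg h.symm
  rw [hu, hv] at h1
  exact absurd h1 (by decide)

/-- Let `Γ` be a simplicial graph containing an induced cycle of length `m ≥ 4`. Then
`C(Γ)` has a subgroup generated by generalised reflections that is not isomorphic to any
right-angled Coxeter group. -/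
theorem result.{u, v} {V : Type u} (Γ : SimpleGraph V) (m : ℕ) (hm : 4 ≤ m)
    (ι : SimpleGraph.cycleGraph m ↪g Γ) :
    ∃ S : Set (RACG Γ), S.Finite ∧ (∀ x ∈ S, IsGenReflection x) ∧
      ∀ (U : Type v) (Δ : SimpleGraph U), IsEmpty (Subgroup.closure S ≃* RACG Δ) := by
  classical
  obtain ⟨k, rfl⟩ := Nat.exists_eq_add_of_le' hm
  let inc : RACG (Cy k) →* RACG Γ := lift (fun i => gen Γ (ι i)) (fun i => gen_sq _)
    (fun u v huv => gen_comm (ι.map_rel_iff.mpr huv))
  let g : V → RACG (Cy k) := fun w => if h : ∃ i, ι i = w then gen (Cy k) h.choose else 1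
  have hgι : ∀ i, g (ι i) = gen (Cy k) i := by
    intro i
    have h : ∃ j, ι j = ι i := ⟨i, rfl⟩
    simp only [g, dif_pos h]
    congr 1
    exact ι.injective h.choose_spec
  have hg1 : ∀ w, g w * g w = 1 := by
    intro w
    by_cases h : ∃ i, ι i = w
    · obtain ⟨i, rfl⟩ := h
      rw [hgι, gen_sq]
    · simp only [g, dif_neg h, mul_one]
  have hg2 : ∀ w w', Γ.Adj w w' → g w * g w' = g w' * g w := by
    intro w w' hww
    by_cases h : ∃ i, ι i = w
    · by_cases h' : ∃ i, ι i = w'
      · obtain ⟨i, rfl⟩ := h
        obtain ⟨j, rfl⟩ := h'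
        rw [hgι, hgι]
        exact gen_comm (ι.map_rel_iff.mp hww)
      · simp only [g, dif_neg h', mul_one, one_mul]
    · simp only [g, dif_neg h, mul_one, one_mul]
  let ret : RACG Γ →* RACG (Cy k) := lift g hg1 hg2
  have hret : ret.comp inc = MonoidHom.id _ := by
    apply hom_ext
    intro i
    simp only [MonoidHom.comp_apply, MonoidHom.id_apply, inc, ret, lift_gen, hgι]
  have hinj : Function.Injective inc := by
    intro a b hab
    have h1 := congrArg ret hab
    have h2 : ∀ x, ret (inc x) = x := fun x => DFunLike.congr_fun hret x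
    rwa [h2, h2] at h1
  refine ⟨inc '' Set.range (r k), (Set.finite_range _).image _, ?_, ?_⟩
  · rintro _ ⟨_, ⟨i, rfl⟩, rfl⟩
    have hne : i ≠ i + 1 := (adj_succ k i).ne
    refine ⟨[gen Γ (ι i), gen Γ (ι (i + 1))], by simp, ?_, ?_, ?_, ?_⟩
    · rw [List.nodup_cons]
      refine ⟨?_, by simp⟩
      rw [List.mem_singleton]
      exact gen_ne (fun h => hne (ι.injective h))
    · intro x hx
      simp only [List.mem_cons, List.not_mem_nil, or_false] at hx
      rcases hx with rfl | rfl
      · exact ⟨1, ι i, by simp⟩
      · exact ⟨1, ι (i + 1), by simp⟩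
    · have hcomm : gen Γ (ι i) * gen Γ (ι (i + 1)) = gen Γ (ι (i + 1)) * gen Γ (ι i) :=
        gen_comm (ι.map_rel_iff.mpr (adj_succ k i))
      intro x hx y hy
      simp only [List.mem_cons, List.not_mem_nil, or_false] at hx hy
      rcases hx with rfl | rfl <;> rcases hy with rfl | rfl
      · exact Commute.refl _
      · exact hcomm
      · exact hcomm.symm
      · exact Commute.refl _
    · simp [r, inc]
  · intro U Δ
    constructor
    intro e
    rw [← MonoidHom.map_closure] at e
    have e2 : H k ≃* (H k).map inc := (H k).equivMapOfInjective inc hinj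
    exact H_not_racg k Δ (e2.trans e)

end Pool.Agent.Results.MP_6a2cdd_al.NonChordal
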